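import Pool.Agent.H95.FJ.Defs

set_option autoImplicit false

open MvPolynomial

namespace Pool.Agent.H83.FJ
open H95.FG H95.FI H95.FJ

theorem t_SEML (hS : S_SEMP) : S_SEML := by
  classical
  intro n q T I w w' hl
  set d := Module.finrank ℂ (Vn n ⧸ I)
  let φ : (Vn n ⧸ I) ≃ₗ[ℂ] (Fin d → ℂ) := (Module.finBasis ℂ (Vn n ⧸ I)).equivFun
  have hφ : ∀ t : ℂ, LinearIndependent ℂ (fun i => I.mkQ (T i (w + t • (w' - w)))) ↔
      LinearIndependent ℂ (fun i => φ (I.mkQ (T i (w + t • (w' - w))))) := by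
    intro t
    exact (LinearMap.linearIndependent_iff (φ : (Vn n ⧸ I) →ₗ[ℂ] (Fin d → ℂ))
      (LinearEquiv.ker φ)).symm
  let u : Fin q → Fin d → Polynomial ℂ := fun i k =>
    Polynomial.C (φ (I.mkQ (T i w)) k) + Polynomial.X * Polynomial.C (φ (I.mkQ (T i (w' - w))) k)
  have hu : ∀ (t : ℂ) (i : Fin q), (fun k => (u i k).eval t) = φ (I.mkQ (T i (w + t • (w' - w)))) := by
    intro t i
    funext k
    simp [u]
  have h0 : LinearIndependent ℂ (fun i (k : Fin d) => (u i k).eval 0) := by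
    have h1 : (fun i (k : Fin d) => (u i k).eval 0) =
        fun i => φ (I.mkQ (T i (w + (0 : ℂ) • (w' - w)))) := by
      funext i
      exact hu 0 i
    rw [h1, ← hφ 0]
    simpa using hl
  refine (hS d q u 0 h0).subset ?_
  intro t ht
  have ht' : ¬ LinearIndependent ℂ (fun i => I.mkQ (T i (w + t • (w' - w)))) := ht
  rw [hφ t] at ht'
  show ¬ LinearIndependent ℂ (fun i (k : Fin d) => (u i k).eval t)
  have h1 : (fun i (k : Fin d) => (u i k).eval t) =
      fun i => φ (I.mkQ (T i (w + t • (w' - w)))) := by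
    funext i
    exact hu t i
  rw [h1]
  exact ht'

end Pool.Agent.H83.FJ
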